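import Mathlib

set_option autoImplicit false

namespace Pool.Agent.Results.MP_773328_co.Parity

open PowerSeries Finset

noncomputable def F : ℚ⟦X⟧ := PowerSeries.mk fun n =>
  if n % 2 = 1 then (-1) ^ (n / 2) / ((n / 2).factorial * (n / 2 + 1).factorial * n) else 0

noncomputable def a (n : ℕ) : ℚ := n.factorial * coeff n (-logOf (1 - F))

def f (n : ℕ) : ℤ := if n % 2 = 1 then (-1) ^ (n / 2) * catalan (n / 2) else 0

lemma f_eq (n : ℕ) : (n.factorial : ℚ) * coeff n F = f n := by
  unfold F f
  rw [coeff_mk]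
  split_ifs with h
  · obtain ⟨k, rfl⟩ : ∃ k, n = 2 * k + 1 := ⟨n / 2, by omega⟩
    rw [show (2 * k + 1) / 2 = k by omega]
    have h1 : ((k : ℚ) + 1) * catalan k = k.centralBinom := by
      exact_mod_cast succ_mul_catalan_eq_centralBinom k
    have h2 : (k.centralBinom : ℚ) * k.factorial * k.factorial = (2 * k).factorial := by
      have := Nat.choose_mul_factorial_mul_factorial (show k ≤ 2 * k by omega)
      rw [show 2 * k - k = k by omega] at this
      exact_mod_cast this
    rw [Nat.factorial_succ, Nat.factorial_succ]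
    push_cast
    rw [← h2, ← h1]
    field_simp
  · simp

lemma ode : d⁄dX ℚ (-logOf (1 - F)) = d⁄dX ℚ F + d⁄dX ℚ (-logOf (1 - F)) * F := by
  have hs : HasSubst (1 - F - 1 : ℚ⟦X⟧) :=
    HasSubst.of_constantCoeff_zero' (by simp [F])
  have h1 : d⁄dX ℚ (log ℚ) * (1 + X) = 1 := by
    rw [deriv_log, mul_add, mul_one]
    ext n
    rcases n with _ | n
    · simp
    · simp [coeff_succ_mul_X, coeff_one, pow_succ]
  have h2 := congrArg (substAlgHom (R := ℚ) hs) h1
  rw [map_mul, map_add, map_one, coe_substAlgHom, subst_X hs] at h2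
  rw [logOf_eq, map_neg, derivative_subst hs]
  simp only [map_sub, Derivation.map_one_eq_zero] at *
  linear_combination (d⁄dX ℚ F) * h2

lemma rec1 (n : ℕ) : a (n + 1) = f (n + 1) +
    ∑ j ∈ range (n + 1), (n.choose j : ℚ) * f j * a (n - j + 1) := by
  have h := congrArg (fun s => (n.factorial : ℚ) * coeff n s) ode
  simp only [map_add, coeff_derivative, mul_comm _ F, coeff_mul,
    Finset.Nat.sum_antidiagonal_eq_sum_range_succ_mk, mul_add, mul_sum] at h
  rw [← f_eq]
  unfold a
  rw [Nat.factorial_succ]
  push_cast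
  have : ∑ j ∈ range (n + 1), (n.choose j : ℚ) * f j *
      ((n - j + 1).factorial * coeff (n - j + 1) (-logOf (1 - F))) =
      ∑ j ∈ range n.succ, (n.factorial : ℚ) * (coeff j F *
        (coeff (n - j + 1) (-logOf (1 - F)) * ((n - j : ℕ) + 1))) := by
    refine sum_congr rfl fun j hj => ?_
    rw [← f_eq, Nat.factorial_succ, ← Nat.choose_mul_factorial_mul_factorial
      (show j ≤ n by simpa [Nat.lt_succ_iff] using hj)]
    push_cast
    ring
  rw [this]
  simp only [mul_add] at *
  linear_combination h

lemma int_a (n : ℕ) : ∃ z : ℤ, a (n + 1) = z := by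
  induction n using Nat.strong_induction_on with
  | _ n ih =>
    rcases n with _ | n
    · exact ⟨f 1, by rw [rec1]; simp [f]⟩
    · have : ∀ j, ∃ z : ℤ, j ≠ 0 → a (n + 1 - j + 1) = z := fun j => by
        by_cases hj : j = 0
        · exact ⟨0, fun h => absurd hj h⟩
        · obtain ⟨z, hz⟩ := ih (n + 1 - j) (by omega)
          exact ⟨z, fun _ => hz⟩
      choose z hz using this
      refine ⟨f (n + 2) + ∑ j ∈ range (n + 2), ((n + 1).choose j : ℤ) * f j * z j, ?_⟩
      rw [rec1]
      push_cast
      congr 1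
      refine sum_congr rfl fun j _ => ?_
      by_cases hj : j = 0
      · simp [hj, f]
      · rw [hz j hj]

lemma sym (N : ℕ) (g : ℕ → ZMod 2) (h : ∀ i j, i + j = N → i ≠ j → g i + g j = 0) :
    ∑ i ∈ range (N + 1), g i = if N % 2 = 0 then g (N / 2) else 0 := by
  rw [← sum_filter_add_sum_filter_not _ (fun i => 2 * i = N)]
  rw [sum_involution (s := filter (fun i => ¬ 2 * i = N) _) (fun i _ => N - i), add_zero]
  · split_ifs with hN
    · rw [sum_eq_single (N / 2)]
      · intro b hb hne; simp only [mem_filter] at hb; omega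
      · intro hb; simp only [mem_filter, mem_range] at hb; omega
    · exact sum_eq_zero fun b hb => by simp only [mem_filter] at hb; omega
  · intro i hi; simp only [mem_filter, mem_range] at hi; exact h _ _ (by omega) (by omega)
  · intro i hi _; simp only [mem_filter, mem_range] at hi; omega
  · intro i hi; simp only [mem_filter, mem_range] at hi ⊢; omega
  · intro i hi; simp only [mem_filter, mem_range] at hi; omega

lemma z2 (x : ZMod 2) : x + x = 0 ∧ x * x = x ∧ (x = 0 ∨ x = 1) := by revert x; decide

lemma cat (k : ℕ) : (catalan k : ZMod 2) = 1 ↔ ∃ m, k + 1 = 2 ^ m := by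
  induction k using Nat.strong_induction_on with
  | _ k ih =>
    rcases k with _ | k
    · simp only [catalan_zero, Nat.cast_one, true_iff]; exact ⟨0, rfl⟩
    · rw [catalan_succ', Finset.Nat.sum_antidiagonal_eq_sum_range_succ_mk]
      push_cast
      rw [sym k _ (fun i j hij _ => by
        rw [show k - i = j by omega, show k - j = i by omega, mul_comm]; exact (z2 _).1)]
      split_ifs with hk
      · rw [show k - k / 2 = k / 2 by omega, (z2 _).2.1, ih _ (by omega)]
        constructor
        · rintro ⟨m, hm⟩; exact ⟨m + 1, by rw [pow_succ]; omega⟩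
        · rintro ⟨_ | m, hm⟩
          · omega
          · exact ⟨m, by rw [pow_succ] at hm; omega⟩
      · simp only [zero_ne_one, false_iff]
        rintro ⟨_ | m, hm⟩
        · omega
        · rw [pow_succ] at hm; omega

lemma f_par (n : ℕ) : (f n : ZMod 2) = 1 ↔ n % 2 = 1 ∧ ∃ m, n + 1 = 2 ^ m := by
  unfold f
  split_ifs with h
  · push_cast
    rw [show (-1 : ZMod 2) = 1 by decide, one_pow, one_mul, cat]
    simp only [h, true_and]
    constructor
    · rintro ⟨m, hm⟩; exact ⟨m + 1, by rw [pow_succ]; omega⟩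
    · rintro ⟨_ | m, hm⟩
      · omega
      · exact ⟨m, by rw [pow_succ] at hm; omega⟩
  · simp [h]

lemma ch (n j : ℕ) (hn : n % 2 = 0) : (n.choose j : ZMod 2) * f j = 0 := by
  rcases Nat.mod_two_eq_zero_or_one j with hj | hj
  · simp [f, hj]
  · rcases n with _ | n
    · rw [Nat.choose_eq_zero_of_lt (by omega)]; simp
    · obtain ⟨i, rfl⟩ : ∃ i, j = i + 1 := ⟨j - 1, by omega⟩
      have h := congrArg (Nat.cast : ℕ → ZMod 2) (Nat.add_one_mul_choose_eq n i)
      rw [Nat.cast_mul, Nat.cast_mul, (ZMod.natCast_eq_zero_iff_even.mpr (Nat.even_iff.mpr hn)),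
        (ZMod.natCast_eq_one_iff_odd.mpr (Nat.odd_iff.mpr hj)), zero_mul, mul_one] at h
      rw [← h, zero_mul]

theorem result (n : ℕ) (hn : 3 ≤ n) : ∃ z : ℤ, a n = z ∧ (Odd z ↔ ∃ k, n + 1 = 2 ^ k) := by
  choose z hz using int_a
  have hr : ∀ n, (z n : ZMod 2) = f (n + 1) +
      ∑ j ∈ range (n + 1), (n.choose j : ZMod 2) * f j * z (n - j) := fun n => by
    have h := rec1 n
    simp only [hz] at h
    have h' : z n = f (n + 1) + ∑ j ∈ range (n + 1), (n.choose j : ℤ) * f j * z (n - j) := by
      exact_mod_cast h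
    rw [h']; push_cast; rfl
  have he : ∀ n, n % 2 = 0 → (z n : ZMod 2) = f (n + 1) := fun n h => by
    rw [hr, sum_eq_zero fun j _ => by rw [ch n j h, zero_mul], add_zero]
  obtain ⟨n, rfl⟩ : ∃ m, n = m + 1 := ⟨n - 1, by omega⟩
  refine ⟨z n, hz n, ?_⟩
  rw [← ZMod.intCast_eq_one_iff_odd]
  rcases Nat.mod_two_eq_zero_or_one n with h | h
  · rw [he n h, f_par]
    exact and_iff_right (by omega)
  · have h1 : ∑ j ∈ range (n + 1), (n.choose j : ZMod 2) * f j * z (n - j) =
        ∑ j ∈ range (n + 1 + 1), (n.choose j : ZMod 2) * f j * f (n + 1 - j) := by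
      rw [sum_range_succ _ (n + 1), Nat.choose_succ_self, Nat.cast_zero, zero_mul, zero_mul, add_zero]
      refine sum_congr rfl fun j hj => ?_
      rw [mem_range] at hj
      rcases Nat.mod_two_eq_zero_or_one j with h2 | h2
      · simp [f, h2]
      · rw [he _ (by omega), show n - j + 1 = n + 1 - j by omega]
    have h2 : (z n : ZMod 2) = 0 := by
      rw [hr, h1, sym, if_pos (by omega)]
      · obtain ⟨j, rfl⟩ : ∃ j, n = 2 * j + 1 := ⟨n / 2, by omega⟩
        rw [show (2 * j + 1 + 1) / 2 = j + 1 by omega]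
        have h3 : f (2 * j + 1 + 1) = 0 := if_neg (by omega)
        rw [h3, Int.cast_zero, zero_add]
        rcases (z2 (f (j + 1) : ZMod 2)).2.2 with h4 | h4
        · rw [h4, mul_zero, zero_mul]
        · obtain ⟨h5, m, hm⟩ := (f_par _).mp h4
          have h6 := succ_mul_catalan_eq_centralBinom (j + 1)
          rw [Nat.centralBinom_eq_two_mul_choose, show 2 * (j + 1) = 2 * j + 1 + 1 by ring,
            Nat.choose_succ_succ', ← Nat.choose_symm_half, hm] at h6
          obtain ⟨m, rfl⟩ : ∃ k, m = k + 2 := ⟨m - 2, by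
            rcases m with _ | _ | m
            · omega
            · omega
            · rfl⟩
          have h7 : Even ((2 * j + 1).choose (j + 1)) :=
            ⟨2 ^ m * catalan (j + 1), by rw [pow_add] at h6; linarith⟩
          rw [ZMod.natCast_eq_zero_iff_even.mpr h7, zero_mul, zero_mul]
      · intro i j hij _
        rw [show n + 1 - i = j by omega, show n + 1 - j = i by omega]
        rcases i with _ | i
        · simp [f]
        · have h3 := ch (n + 1) (i + 1) (by omega)
          rw [Nat.choose_succ_succ', ← Nat.choose_symm (show i ≤ n by omega),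
            show n - i = j by omega] at h3
          push_cast at h3
          linear_combination (f j : ZMod 2) * h3
    rw [h2]
    simp only [zero_ne_one, false_iff]
    rintro ⟨_ | m, hm⟩
    · omega
    · rw [pow_succ] at hm; omega

end Pool.Agent.Results.MP_773328_co.Parity
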